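import Pool.Agent.Work.MP_7393fc_al.Iso

/-!
All finite `p`-groups of class two whose central automorphisms are exactly the class-preserving
ones, by generators and relations, and the isomorphisms between them.
-/

namespace Pool.Agent.Results.MP_7393fc_al.Classification

open Subgroup Pool.Agent.Work.MP_7393fc_al

universe u

theorem result (p : ℕ) [Fact p.Prime] :
    (∀ (G : Type u) [Group G] [Finite G], IsPGroup p G → commutator G ≠ ⊥ →
      commutator G ≤ center G →
      (∀ α : MulAut G, (∀ x, x⁻¹ * α x ∈ center G) ↔ ∀ x, IsConj x (α x)) →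
      ∃ (d k : ℕ) (a : Fin d → ℕ) (c : Fin k → ℕ) (σ : Fin d → Fin d → Fin k → ℤ)
        (π : Fin d → Fin k → ℤ), Admissible p a c σ ∧
          Nonempty (G ≃* PresentedGroup (relators p a c σ π))) ∧
    (∀ (d k : ℕ) (a : Fin d → ℕ) (c : Fin k → ℕ) (σ : Fin d → Fin d → Fin k → ℤ)
      (π : Fin d → Fin k → ℤ), Admissible p a c σ →
      Finite (PresentedGroup (relators p a c σ π)) ∧
      IsPGroup p (PresentedGroup (relators p a c σ π)) ∧
      commutator (PresentedGroup (relators p a c σ π)) ≠ ⊥ ∧
      commutator (PresentedGroup (relators p a c σ π)) =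
        center (PresentedGroup (relators p a c σ π)) ∧
      Nonempty (PresentedGroup (relators p a c σ π) ⧸
        center (PresentedGroup (relators p a c σ π)) ≃* ∀ r, Multiplicative (ZMod (p ^ a r))) ∧
      Nonempty (center (PresentedGroup (relators p a c σ π)) ≃*
        ∀ t, Multiplicative (ZMod (p ^ c t))) ∧
      ∀ α : MulAut (PresentedGroup (relators p a c σ π)),
        (∀ x, x⁻¹ * α x ∈ center (PresentedGroup (relators p a c σ π))) ↔
          ∀ x, IsConj x (α x)) ∧
    ∀ (d k : ℕ) (a : Fin d → ℕ) (c : Fin k → ℕ) (σ : Fin d → Fin d → Fin k → ℤ)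
      (π : Fin d → Fin k → ℤ) (d' k' : ℕ) (a' : Fin d' → ℕ) (c' : Fin k' → ℕ)
      (σ' : Fin d' → Fin d' → Fin k' → ℤ) (π' : Fin d' → Fin k' → ℤ),
      Admissible p a c σ → Admissible p a' c' σ' →
      (Nonempty (PresentedGroup (relators p a c σ π) ≃* PresentedGroup (relators p a' c' σ' π')) ↔
        Related p a c σ π a' c' σ' π') :=
  ⟨fun G _ _ => partB G, fun _ _ _ _ _ π h => (partA' h π).1,
    fun _ _ _ _ _ _ _ _ _ _ _ _ h h' => partC h h'⟩

end Pool.Agent.Results.MP_7393fc_al.Classification
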