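import Pool.Agent.Work.MP_7393fc_al.Main

/-!
Class two `p`-groups whose central automorphisms are exactly the class-preserving ones.
-/

namespace Pool.Agent.Results.MP_7393fc_al.Criterion

open Subgroup Pool.Agent.Work.MP_7393fc_al
open scoped commutatorElement

theorem result (p : ℕ) [Fact p.Prime] (G : Type*) [Group G] [Finite G] (hG : IsPGroup p G)
    (h1 : commutator G ≠ ⊥) (h2 : commutator G ≤ center G) :
    (∀ α : MulAut G, (∀ x, x⁻¹ * α x ∈ center G) ↔ ∀ x, IsConj x (α x)) ↔
      center G = commutator G ∧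
      ∀ (w : ℕ) (N : Subgroup G), N ≤ centralTorsion G (p ^ w) →
        N.relIndex (centralTorsion G (p ^ w)) = p →
        (centralTorsion G (p ^ w) = center G ∨
          ∃ z ∈ centralTorsion G (p ^ (w + 1)), z ^ p ∉ N) →
        ∀ x : G, x ^ p ^ w ∈ center G → (∀ y : G, y ^ p ^ w ∈ center G → ⁅x, y⁆ ∈ N) →
          ∃ u : ℕ, centralTorsion G (p ^ u) ≤ N ∧
            ∃ h y : G, h ^ p ^ u ∈ center G ∧ x = h * y ^ p :=
  main hG h1 h2

end Pool.Agent.Results.MP_7393fc_al.Criterion
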