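import Pool.Agent.Work.MP_7393fc_al.Wild.Main

/-!
The class two `p`-groups whose central automorphisms are class-preserving contain the problem of
classifying pairs of matrices up to simultaneous similarity, for every fixed centre of order
`p ^ k` with `3 ≤ k`.
-/

namespace Pool.Agent.Results.MP_7393fc_al.Wildness

open Subgroup Pool.Agent.Work.MP_7393fc_al.Wild

theorem result (p k m : ℕ) [Fact p.Prime] (hk : 3 ≤ k) (hm : 0 < m) :
    (∀ X Y : Matrix (Fin m) (Fin m) (ZMod p),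
      Nat.card (Heis (GaloisField p k) X Y) = p ^ (k * (10 * m + 1)) ∧
      Nat.card (center (Heis (GaloisField p k) X Y)) = p ^ k ∧
      commutator (Heis (GaloisField p k) X Y) ≠ ⊥ ∧
      commutator (Heis (GaloisField p k) X Y) = center (Heis (GaloisField p k) X Y) ∧
      (p ≠ 2 → ∀ x : Heis (GaloisField p k) X Y, x ^ p = 1) ∧
      ∀ α : MulAut (Heis (GaloisField p k) X Y),
        (∀ x, x⁻¹ * α x ∈ center (Heis (GaloisField p k) X Y)) ↔ ∀ x, IsConj x (α x)) ∧
    ∀ X Y X' Y' : Matrix (Fin m) (Fin m) (ZMod p),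
      Nonempty (Heis (GaloisField p k) X Y ≃* Heis (GaloisField p k) X' Y') ↔
        ∃ P : Matrix (Fin m) (Fin m) (ZMod p), IsUnit P ∧ P * X = X' * P ∧ P * Y = Y' * P := by
  have hK : Nat.card (GaloisField p k) = p ^ k := GaloisField.card p k (by omega)
  refine ⟨fun X Y => ⟨by rw [card_heis, hK, pow_mul], card_cen.trans hK, fun h => ?_, comm_eq hm,
    pow_p, aut_iff hm⟩, fun X Y X' Y' => ⟨fun ⟨f⟩ => sim_of_iso hk hK f,
    fun ⟨_, h0, h1, h2⟩ => iso_of_sim h0 h1 h2⟩⟩
  rw [comm_eq hm] at h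
  have h1 : (⟨0, 0, 1⟩ : Heis (GaloisField p k) X Y) ∈ center _ := mem_cen.2 ⟨rfl, rfl⟩
  rw [h, mem_bot] at h1
  exact one_ne_zero (congrArg Heis.z h1)

end Pool.Agent.Results.MP_7393fc_al.Wildness
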